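import Mathlib

set_option autoImplicit false

open Polynomial

namespace Pool.Agent.Results.MP_664f87_an.NotCZDS

open scoped Classical in
/-- `Z_c(f)`: the number of non-real zeros of the real polynomial `f`, counted with multiplicity. -/
noncomputable def Zc (f : ℝ[X]) : ℕ :=
  Multiset.card ((f.map (algebraMap ℝ ℂ)).roots.filter (fun z : ℂ => z.im ≠ 0))

/-- `Γ[f] = ∑ γ_k a_k x^k` for `f = ∑ a_k x^k`. -/
noncomputable def act (γ : ℕ → ℝ) (f : ℝ[X]) : ℝ[X] :=
  ∑ k ∈ Finset.range (f.natDegree + 1), C (γ k * f.coeff k) * X ^ k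

/-- `γ` is a complex zero decreasing sequence: `Z_c(Γ[f]) ≤ Z_c(f)` for every real `f`. -/
def IsCZDS (γ : ℕ → ℝ) : Prop := ∀ f : ℝ[X], Zc (act γ f) ≤ Zc f

/-- The sequence of the question, `γ_k = (1 + k + k^2) / k!`. -/
noncomputable def γ (k : ℕ) : ℝ := (1 + (k : ℝ) + (k : ℝ) ^ 2) / (k.factorial : ℝ)

/-! ### The data -/

/-- integer table -/
def rl : List ℤ :=
  [619343205309, -15616459199639, 245462769380547, -2708133069383681, 22505836563618243, 
   -147496653167670476, 786914246615078117, -3497339296716806660, 13174112098472827773, 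
   -42623824768151991241, 119687906940801233892, -294098298844713362678, 
   636541880097197323527, -1219885337251611341046, 2078526331562053574570, 
   -3158779816854049252197, 4291824737724316669637, -5222040726816560693732, 
   5695611090646786762104, -5570457942385538781191, 4883901395770686250100, 
   -3834985121736071641672, 2692659662472078109760, -1686545386657116044537, 
   939350195273658842727, -463298234324486829600, 201270140582717956820, 
   -76495327909468879877, 25215673844769939259, -7129465329292164056, 1704049162972699314, 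
   -337663606775816814, 53987194174830888, -6692777153014219, 603684515982984, 
   -35247907232667, 1000000000000]

/-- `r_i` -/
def r (i : ℕ) : ℤ := rl.getD i 0

/-- integer coefficients `a_i = r_i * 36! / i!`. -/
def a (i : ℕ) : ℤ := r i * ((36).descFactorial (36 - i) : ℕ)

theorem num : (∑ i ∈ Finset.range 37, ∑ j ∈ Finset.range 37,
    (a i : ℚ) * (a j : ℚ) *
      (((i + j).factorial : ℚ) / (1 + ((i + j : ℕ) : ℚ) + ((i + j : ℕ) : ℚ) ^ 2))) < -1 := by
  decide +kernel

theorem a36 : a 36 ≠ 0 := by decide +kernel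

/-- weights `1/γ_k`. -/
noncomputable def w (k : ℕ) : ℝ := (k.factorial : ℝ) / (1 + (k : ℝ) + (k : ℝ) ^ 2)

theorem numR : (∑ i ∈ Finset.range 37, ∑ j ∈ Finset.range 37,
    (a i : ℝ) * (a j : ℝ) * w (i + j)) < -1 := by
  have h := num
  have h2 : ((∑ i ∈ Finset.range 37, ∑ j ∈ Finset.range 37,
    (a i : ℚ) * (a j : ℚ) *
      (((i + j).factorial : ℚ) / (1 + ((i + j : ℕ) : ℚ) + ((i + j : ℕ) : ℚ) ^ 2)) : ℚ) : ℝ)
      < ((-1 : ℚ) : ℝ) := by exact_mod_cast h
  push_cast at h2
  unfold w
  push_cast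
  exact h2

theorem γ_pos (k : ℕ) : 0 < γ k := by unfold γ; positivity

theorem w_pos (k : ℕ) : 0 < w k := by unfold w; positivity

theorem γw (k : ℕ) : γ k * w k = 1 := by
  unfold γ w
  have h1 : (k.factorial : ℝ) ≠ 0 := by positivity
  have h2 : (1 + (k : ℝ) + (k : ℝ) ^ 2) ≠ 0 := by positivity
  field_simp

/-- `q = ∑ a_i x^i`, of degree 36. -/
noncomputable def q : ℝ[X] := ∑ i ∈ Finset.range 37, C (a i : ℝ) * X ^ i

/-- `p = q^2 + 1`, of degree 72. -/
noncomputable def p : ℝ[X] := q ^ 2 + C 1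

/-- `f = Γ^{-1}[p]`. -/
noncomputable def f : ℝ[X] := ∑ k ∈ Finset.range 73, C (w k * p.coeff k) * X ^ k

theorem q_coeff (k : ℕ) : q.coeff k = if k < 37 then (a k : ℝ) else 0 := by
  unfold q
  rw [finsetSum_coeff]
  simp only [coeff_C_mul, coeff_X_pow, mul_ite, mul_one, mul_zero]
  rw [Finset.sum_ite_eq]
  simp [Finset.mem_range]

theorem q_natDegree : q.natDegree = 36 := by
  apply le_antisymm
  · rw [natDegree_le_iff_coeff_eq_zero]
    intro N hN
    rw [q_coeff, if_neg (by omega)]
  · apply le_natDegree_of_ne_zero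
    rw [q_coeff, if_pos (by norm_num)]
    exact_mod_cast a36

theorem p_natDegree : p.natDegree = 72 := by
  unfold p
  rw [natDegree_add_C, natDegree_pow, q_natDegree]

theorem p_pos (x : ℝ) : 0 < p.eval x := by
  unfold p
  simp only [eval_add, eval_pow, eval_C]
  positivity

theorem f_coeff (k : ℕ) : f.coeff k = if k < 73 then w k * p.coeff k else 0 := by
  unfold f
  rw [finsetSum_coeff]
  simp only [coeff_C_mul, coeff_X_pow, mul_ite, mul_one, mul_zero]
  rw [Finset.sum_ite_eq]
  simp [Finset.mem_range]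

theorem f_coeff' (k : ℕ) : f.coeff k = w k * p.coeff k := by
  rw [f_coeff]
  split_ifs with h
  · rfl
  · rw [coeff_eq_zero_of_natDegree_lt (by rw [p_natDegree]; omega), mul_zero]

theorem p72 : 0 < p.coeff 72 := by
  have h1 : p.coeff 72 = (q ^ 2).coeff 72 := by
    unfold p
    rw [coeff_add, coeff_C]
    norm_num
  have h2 : (q ^ 2).coeff 72 = (q.coeff 36) ^ 2 := by
    have := coeff_pow_of_natDegree_le (p := q) (n := 36) (m := 2) q_natDegree.le
    simpa using this
  rw [h1, h2, q_coeff, if_pos (by norm_num)]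
  have : (a 36 : ℝ) ≠ 0 := by exact_mod_cast a36
  positivity

theorem f_natDegree : f.natDegree = 72 := by
  apply le_antisymm
  · rw [natDegree_le_iff_coeff_eq_zero]
    intro N hN
    rw [f_coeff, if_neg (by omega)]
  · apply le_natDegree_of_ne_zero
    rw [f_coeff']
    exact (mul_pos (w_pos _) p72).ne'

theorem act_f : act γ f = p := by
  ext k
  unfold act
  rw [finsetSum_coeff]
  simp only [coeff_C_mul, coeff_X_pow, mul_ite, mul_one, mul_zero]
  rw [Finset.sum_ite_eq, f_natDegree]
  split_ifs with h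
  · rw [f_coeff', ← mul_assoc, γw, one_mul]
  · rw [Finset.mem_range] at h
    rw [coeff_eq_zero_of_natDegree_lt (by rw [p_natDegree]; omega)]

/-- the linear functional `p ↦ ∑ p_k w_k`. -/
noncomputable def L (g : ℝ[X]) : ℝ := ∑ k ∈ Finset.range 73, g.coeff k * w k

theorem f_one : f.eval 1 = L p := by
  unfold f L
  rw [eval_finsetSum]
  apply Finset.sum_congr rfl
  intro k _
  simp [mul_comm]

theorem L_sq : L (q ^ 2) = ∑ i ∈ Finset.range 37, ∑ j ∈ Finset.range 37,
    (a i : ℝ) * (a j : ℝ) * w (i + j) := by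
  have hq : q ^ 2 = ∑ i ∈ Finset.range 37, ∑ j ∈ Finset.range 37,
      C ((a i : ℝ) * (a j : ℝ)) * X ^ (i + j) := by
    rw [sq]
    unfold q
    rw [Finset.sum_mul_sum]
    apply Finset.sum_congr rfl
    intro i _
    apply Finset.sum_congr rfl
    intro j _
    rw [C_mul, pow_add]
    ring
  unfold L
  rw [hq]
  simp only [finsetSum_coeff, coeff_C_mul, coeff_X_pow, Finset.sum_mul]
  rw [Finset.sum_comm]
  apply Finset.sum_congr rfl
  intro i hi
  rw [Finset.sum_comm]
  apply Finset.sum_congr rfl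
  intro j hj
  simp only [mul_ite, mul_one, mul_zero, ite_mul, zero_mul]
  rw [Finset.sum_ite_eq' ]
  rw [if_pos]
  rw [Finset.mem_range] at hi hj ⊢
  omega

theorem f_one_neg : f.eval 1 < 0 := by
  rw [f_one]
  have h1 : L p = L (q ^ 2) + w 0 := by
    unfold L p
    simp only [coeff_add, add_mul, Finset.sum_add_distrib]
    congr 1
    simp only [coeff_C, ite_mul, one_mul, zero_mul]
    rw [Finset.sum_ite_eq']
    simp
  have h2 : w 0 = 1 := by unfold w; simp
  rw [h1, h2, L_sq]
  linarith [numR]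

theorem f_zero_pos : 0 < f.eval 0 := by
  have h1 : f.eval 0 = w 0 * p.eval 0 := by
    rw [← coeff_zero_eq_eval_zero, f_coeff', coeff_zero_eq_eval_zero]
  rw [h1]
  exact mul_pos (w_pos 0) (p_pos 0)

theorem exists_roots : ∃ x y : ℝ, x < y ∧ f.eval x = 0 ∧ f.eval y = 0 := by
  have hc : Continuous fun x => f.eval x := f.continuous
  -- first root in (0,1)
  have h1 : (0 : ℝ) ∈ (fun x => f.eval x) '' Set.Icc 0 1 := by
    apply intermediate_value_Icc' (by norm_num) hc.continuousOn
    exact ⟨f_one_neg.le, f_zero_pos.le⟩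
  obtain ⟨x, hx, hx0⟩ := h1
  have hx1 : x < 1 := by
    rcases lt_or_eq_of_le hx.2 with h | h
    · exact h
    · exfalso
      have : f.eval 1 = 0 := by rw [← h]; exact hx0
      linarith [f_one_neg]
  -- second root beyond 1
  have hdeg : 0 < f.degree := by
    rw [← natDegree_pos_iff_degree_pos, f_natDegree]; norm_num
  have hlead : 0 ≤ f.leadingCoeff := by
    rw [leadingCoeff, f_natDegree, f_coeff']
    exact (mul_pos (w_pos _) p72).le
  have ht := f.tendsto_atTop_of_leadingCoeff_nonneg hdeg hlead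
  obtain ⟨R, hR⟩ := ((ht.eventually_gt_atTop 0).and (Filter.eventually_gt_atTop 1)).exists
  have h2 : (0 : ℝ) ∈ (fun x => f.eval x) '' Set.Icc 1 R := by
    apply intermediate_value_Icc hR.2.le hc.continuousOn
    exact ⟨f_one_neg.le, hR.1.le⟩
  obtain ⟨y, hy, hy0⟩ := h2
  exact ⟨x, y, by linarith [hy.1], hx0, hy0⟩

theorem Zc_p : Zc p = 72 := by
  unfold Zc
  rw [Multiset.filter_eq_self.2]
  · have h := IsAlgClosed.splits (p.map (algebraMap ℝ ℂ))
    rw [← h.natDegree_eq_card_roots, natDegree_map, p_natDegree]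
  · intro z hz him
    have hne : p.map (algebraMap ℝ ℂ) ≠ 0 := by
      intro h0
      rw [h0] at hz
      simp at hz
    rw [mem_roots hne, IsRoot.def] at hz
    have hzr : z = ((z.re : ℝ) : ℂ) := by
      apply Complex.ext <;> simp [him]
    rw [hzr, eval_map] at hz
    have : eval₂ (algebraMap ℝ ℂ) ((z.re : ℝ) : ℂ) p = ((p.eval z.re : ℝ) : ℂ) := by
      have := eval₂_at_apply (p := p) (algebraMap ℝ ℂ) z.re
      simpa using this
    rw [this] at hz
    have h0 : p.eval z.re = 0 := by exact_mod_cast hz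
    linarith [p_pos z.re]

theorem Zc_f : Zc f ≤ 70 := by
  obtain ⟨x, y, hxy, hx, hy⟩ := exists_roots
  have hne : f.map (algebraMap ℝ ℂ) ≠ 0 := by
    intro h0
    have h1 : (f.map (algebraMap ℝ ℂ)).natDegree = 72 := by rw [natDegree_map, f_natDegree]
    rw [h0] at h1
    simp at h1
  have hroot : ∀ t : ℝ, f.eval t = 0 → ((t : ℝ) : ℂ) ∈ (f.map (algebraMap ℝ ℂ)).roots := by
    intro t ht
    rw [mem_roots hne, IsRoot.def, eval_map]
    have := eval₂_at_apply (p := f) (algebraMap ℝ ℂ) t
    simp only [Complex.coe_algebraMap] at this ⊢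
    rw [this, ht]
    simp
  have hcard : Multiset.card (f.map (algebraMap ℝ ℂ)).roots ≤ 72 := by
    calc _ ≤ (f.map (algebraMap ℝ ℂ)).natDegree := card_roots' _
      _ = 72 := by rw [natDegree_map, f_natDegree]
  classical
  have hsub : ({((x : ℝ) : ℂ), ((y : ℝ) : ℂ)} : Multiset ℂ) ≤
      (f.map (algebraMap ℝ ℂ)).roots.filter (fun z : ℂ => ¬ (z.im ≠ 0)) := by
    rw [Multiset.le_iff_subset]
    · intro z hz
      rw [Multiset.mem_filter]
      simp only [Multiset.insert_eq_cons, Multiset.mem_cons, Multiset.mem_singleton] at hz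
      rcases hz with rfl | rfl
      · exact ⟨hroot x hx, by simp⟩
      · exact ⟨hroot y hy, by simp⟩
    · simp only [Multiset.insert_eq_cons, Multiset.nodup_cons, Multiset.mem_singleton,
        Multiset.nodup_singleton, and_true]
      intro h
      have : x = y := by exact_mod_cast h
      linarith
  have hc2 := Multiset.card_le_card hsub
  have hsum := Multiset.filter_add_not (fun z : ℂ => z.im ≠ 0) (f.map (algebraMap ℝ ℂ)).roots
  have hsum' := congrArg Multiset.card hsum
  rw [Multiset.card_add] at hsum'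
  have h2 : Multiset.card ({((x : ℝ) : ℂ), ((y : ℝ) : ℂ)} : Multiset ℂ) = 2 := by simp
  unfold Zc
  have e : Multiset.card (Multiset.filter (fun z : ℂ => z.im ≠ 0) (f.map (algebraMap ℝ ℂ)).roots)
    ≤ 70 := by omega
  convert e

/-- The sequence `(1 + k + k^2)/k!` is not a complex zero decreasing sequence. -/
theorem result : ¬ IsCZDS (fun k : ℕ => (1 + (k : ℝ) + (k : ℝ) ^ 2) / (k.factorial : ℝ)) := by
  intro h
  have h1 := h f
  have h2 : act (fun k : ℕ => (1 + (k : ℝ) + (k : ℝ) ^ 2) / (k.factorial : ℝ)) f = p := act_f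
  rw [h2, Zc_p] at h1
  have := Zc_f
  omega

end Pool.Agent.Results.MP_664f87_an.NotCZDS
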